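import Pool.Agent.Lib.HW86.Vol

/-! One lacunary step of the iteration of Aubin's equation. -/

open scoped Topology ContDiff ComplexOrder Matrix ENNReal
open Filter Complex Set MeasureTheory

noncomputable section

namespace Pool.Agent.Lib.W86

open Pool.Agent.Lib.SV (E)
open Pool.Agent.Lib.HS32 Pool.Agent.Lib.HS32.Mf Pool.Agent.Lib.HS76 Pool.Agent.Lib.GH

lemma l1_le {X : Type} [MeasurableSpace X] {μ : Measure X} {f g r : X → ℝ} (hf : Integrable f μ)
    (hg : Integrable g μ) (hr : Integrable r μ) (r0 : ∀ x, 0 ≤ r x) (h : ∀ x, g x - r x ≤ f x)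
    (e : ∫ x, f x ∂μ = ∫ x, g x ∂μ) : ∫ x, |f x - g x| ∂μ ≤ 2 * ∫ x, r x ∂μ := by
  have k := integral_mono (hf.sub hg).abs ((hf.sub hg).add (hr.const_mul 2)) fun x => by
    simp only [Pi.add_apply, Pi.sub_apply]
    exact abs_le.2 ⟨by linarith [h x], by linarith [r0 x]⟩
  rw [integral_add' (hf.sub hg) (hr.const_mul 2), integral_sub' hf hg, e, sub_self, zero_add,
    integral_const_mul] at k
  exact k

variable {n : ℕ}

lemma mat_ineq {G T h : Mat n} (hG : G.PosDef) (hT : T.PosDef) (hh : h.PosSemidef) (c : ℝ) :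
    2 * c * (G⁻¹ * h).trace.re - c ^ 2 * (T⁻¹ * h).trace.re ≤ (G⁻¹ * h * G⁻¹ * T).trace.re := by
  have u := hT.det_pos.ne'.isUnit
  have k := (Complex.nonneg_iff.1
    (tr_mul_nonneg hh (hT.posSemidef.mul_mul_conjTranspose_same (c • T⁻¹ - G⁻¹)))).1
  rw [Matrix.conjTranspose_sub, Matrix.conjTranspose_smul, hT.inv.1.eq, hG.inv.1.eq,
    star_trivial] at k
  simp only [Matrix.sub_mul, Matrix.mul_sub, Matrix.smul_mul, Matrix.mul_smul,
    Matrix.nonsing_inv_mul _ u, Matrix.mul_assoc, Matrix.mul_nonsing_inv _ u, Matrix.one_mul,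
    Matrix.mul_one, Matrix.trace_sub, Matrix.trace_smul, sub_re, smul_re, smul_eq_mul] at k
  rw [Matrix.trace_mul_comm G⁻¹, Matrix.trace_mul_comm T⁻¹, Matrix.mul_assoc, Matrix.mul_assoc,
    Matrix.trace_mul_comm G⁻¹, Matrix.mul_assoc, Matrix.mul_assoc]
  linarith

variable {M : Mf n} [M.Cpt] {H B : M.Fam (Mat n)} {e e' δ a : ℝ} {p w P : M.X → ℝ}

/-- The successor of a metric. -/
theorem step (hA : HS.St_AUBIN) (hn : 0 < n) (hH : M.Kae H) (hp : M.Sm p)
    (hw : M.Sm w) (hG : M.Kae (M.gB H B e' w)) (ha : 0 < a)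
    (he : a * (e - e') = (1 - δ) * e') : ∃ P, M.Sm P ∧ M.Kae (M.gB H B e' P) ∧
      (∀ x, (1 + a) ^ n * M.dq H (M.gB H B e' P) x = Real.exp ((1 + a) * P x - a * p x)) ∧
      M.All fun c z => M.ric (M.gB H B e' P) c z = a • M.gB H B e p c z + (δ * e') • H c z +
        B c z - (1 + a) • M.gB H B e' P c z := by
  have a1 : (0 : ℝ) < 1 + a := by linarith
  have key : ∀ Q, M.Sm Q → M.All fun c z => (a • M.gB H B e p + (δ * e') • H + B - M.ric H +
      M.hs fun x => (1 + a) * Q x - a * p x) c z = ((1 + a) • M.gB H B e' Q) c z :=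
    fun Q hQ c hc z hz => by
      have k1 := ((mLAP n M _ _ (hQ.const_mul (1 + a)) (hp.const_mul a)).1 0 c hc z hz).2.2.1
      have k2 := ((mLAP n M _ _ hQ hQ).1 (1 + a) c hc z hz).2.2.2.1
      have k3 := ((mLAP n M _ _ hp hp).1 a c hc z hz).2.2.2.1
      have k4 : δ * e' = (1 + a) * e' - a * e := by linarith
      simp only [Pi.add_apply, Pi.sub_apply, Pi.smul_apply, G34.gB_app, k1, k2, k3, k4]
      module
  obtain ⟨u, u1, u2, u3⟩ := RB.solve hA hn hH.toMet (T := a • M.gB H B e p + (δ * e') • H + B)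
    ((hw.const_mul (1 + a)).sub (hp.const_mul a)) ((hG.smul a1).congr (key w hw))
  have sP : M.Sm fun x => (1 + a)⁻¹ * (u x + a * p x) := (u1.add (hp.const_mul a)).const_mul _
  have k := key _ sP
  have eu : (fun x => (1 + a) * ((1 + a)⁻¹ * (u x + a * p x)) - a * p x) = u := by
    funext x
    rw [mul_inv_cancel_left₀ a1.ne', add_sub_cancel_right]
  rw [eu] at k
  have kG : M.Kae (M.gB H B e' fun x => (1 + a)⁻¹ * (u x + a * p x)) :=
    (u2.smul (inv_pos.2 a1)).congr fun c hc z hz => by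
      beta_reduce
      rw [Pi.smul_apply, Pi.smul_apply, k c hc z hz, Pi.smul_apply, Pi.smul_apply,
        inv_smul_smul₀ a1.ne']
  have d : ∀ x, (1 + a) ^ n * M.dq H (M.gB H B e' fun x => (1 + a)⁻¹ * (u x + a * p x)) x =
      Real.exp (u x) := fun x => by
    rw [← u3, dq_congr (fun _ _ _ _ => rfl) k, dq_smul]
  refine ⟨_, sP, kG, fun x => by rw [d, congrFun eu x], fun c hc z hz => ?_⟩
  have r := ((mHES n M).2.2.2.2.2.2.2.2.2 _ H kG.toMet hH.toMet).2 c hc z hz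
  have l : (fun x => Real.log (M.dq H (M.gB H B e' fun x => (1 + a)⁻¹ * (u x + a * p x)) x)) =
      fun x => u x - Real.log ((1 + a) ^ n) := by
    funext x
    rw [eq_div_of_mul_eq (pow_pos a1 n).ne' ((mul_comm _ _).trans (d x)),
      Real.log_div (Real.exp_pos _).ne' (pow_pos a1 n).ne', Real.log_exp]
  have s := (mLAP n M _ _ u1 (sm_const (Real.log ((1 + a) ^ n)))).1 (Real.log ((1 + a) ^ n)) c hc
    z hz
  have k' := k c hc z hz
  simp only [Pi.add_apply, Pi.sub_apply, Pi.smul_apply] at k'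
  beta_reduce at r ⊢
  rw [r, l, s.2.2.1, s.1, ← k']
  abel

/-- Lower bound for the volume density of the successor. -/
theorem step_low (hH : M.Kae H) (hw : M.SolB H B e' w) (hP : M.Sm P) (ha : 0 ≤ a)
    (hd : ∀ x, (1 + a) ^ n * M.dq H (M.gB H B e' P) x = Real.exp ((1 + a) * P x - a * p x))
    {W K : ℝ} (h1 : ∀ x, w x ≤ W) (h2 : ∀ x, |p x| ≤ K) (x : M.X) :
    Real.exp (w x) * Real.exp (-(a * (W - w x + 2 * K + n))) ≤ M.dq H (M.gB H B e' P) x := by
  have a1 : (1 : ℝ) ≤ 1 + a := by linarith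
  have s := hP.sub hw.sm
  obtain ⟨y, hy⟩ := s.exists_min
  have k1 := ((((mLAP n M _ _ s s).2.2 _ hH.toMet).2.2.1 y 0).2.2.2.2.2.2.2.2.2
    (Eventually.of_forall hy)).2.2 _ (ch_mem y) (mem_ch y)
  rw [(AllOn.ch ((mLAP n M _ _ hP hw.sm).1 0) y).2.2.1] at k1
  have k2 := det_mono (hw.kae.toMet.ev_pos y) (B := M.ev (M.gB H B e' P) y) (by
    rwa [ev, ev, G34.gB_app, G34.gB_app, add_sub_add_left_eq_sub])
  have fP : M.Form (M.gB H B e' P) := by
    refine ((hw.kae.toClo.sub ((mHES n M).1 _ hw.sm)).add ((mHES n M).1 _ hP)).toForm.congr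
      fun c _ z _ => ?_
    simp only [Pi.add_apply, Pi.sub_apply, G34.gB_app, add_sub_cancel_right]
  have k3 := (AllOn.ch ((mINV n M H hH.toMet).2.1 _ fP) y).2.2
  have k4 := AllOn.ch (G34.sol_det hH hw) y
  rw [ch_symm] at k3 k4
  rw [ev, ev, k3, k4] at k2
  have k5 := le_of_mul_le_mul_right k2 (pd_det_re (hH.toMet.ev_pos y))
  have k6 : Real.exp (w y) ≤ Real.exp ((1 + a) * P y - a * p y) := by
    rw [← hd]
    exact k5.trans (le_mul_of_one_le_left ((Real.exp_pos _).le.trans k5) (one_le_pow₀ a1))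
  have k7 : (1 + a) ^ n ≤ Real.exp (n * a) := by
    rw [Real.exp_nat_mul]
    exact pow_le_pow_left₀ (by linarith) (by linarith [Real.add_one_le_exp a]) n
  refine le_of_mul_le_mul_left ?_ (pow_pos (show 0 < 1 + a by linarith) n)
  rw [hd, ← Real.exp_add]
  refine (mul_le_mul_of_nonneg_right k7 (Real.exp_pos _).le).trans ?_
  rw [← Real.exp_add, Real.exp_le_exp]
  have := Real.exp_le_exp.1 k6
  nlinarith [mul_le_mul_of_nonneg_left (hy x) (show 0 ≤ 1 + a by linarith),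
    mul_le_mul_of_nonneg_left (h1 y) ha, mul_le_mul_of_nonneg_left (abs_le.1 (h2 y)).1 ha,
    mul_le_mul_of_nonneg_left (abs_le.1 (h2 x)).2 ha]

/-- The distance of the two densities. -/
theorem step_l1 (hH : M.Kae H) (hB : M.Clo B) (hw : M.SolB H B e' w) (hP : M.Sm P)
    (hG : M.Kae (M.gB H B e' P)) (ha : 0 ≤ a) {W K : ℝ} (h1 : ∀ x, w x ≤ W) (K0 : 0 ≤ K)
    (h : ∀ x, Real.exp (w x) * Real.exp (-(a * (W - w x + K))) ≤ M.dq H (M.gB H B e' P) x) :
    ∫ x, M.dq H (M.gB H B e' P) x ∂M.mu H = ∫ x, Real.exp (w x) ∂M.mu H ∧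
    ∫ x, |M.dq H (M.gB H B e' P) x - Real.exp (w x)| ∂M.mu H ≤
      2 * (a * ((1 + K) * Real.exp W) * (M.mu H).real univ) := by
  obtain ⟨-, hf, -, -, hi, -⟩ := mMU n M H hH.toMet
  have e1 : ∫ x, M.dq H (M.gB H B e' P) x ∂M.mu H = ∫ x, Real.exp (w x) ∂M.mu H := by
    rw [K88.mass hH hB hw, K88.gB_eq,
      mCOH n M H _ P hH.toMet ((hH.toClo.smul e').add (K88.clo_tw hH hB)) hP]
  refine ⟨e1, (l1_le (hi ℝ _ ((mINV n M H hH.toMet).1 _ hG.toTen).2.2.2.1.continuous)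
    (hi ℝ _ hw.sm.exp.continuous) (integrable_const (a * ((1 + K) * Real.exp W)))
    (fun _ => by positivity) (fun x => le_trans ?_ (h x)) e1).trans_eq (by simp [mul_comm])⟩
  have k1 := mul_le_mul_of_nonneg_left (Real.add_one_le_exp (-(a * (W - w x + K))))
    (Real.exp_pos (w x)).le
  have k2 := mul_le_mul_of_nonneg_left (Real.add_one_le_exp (W - w x)) (Real.exp_pos (w x)).le
  rw [← Real.exp_add, add_sub_cancel] at k2
  have k3 := mul_le_mul_of_nonneg_left (Real.exp_le_exp.2 (h1 x)) K0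
  nlinarith [mul_le_mul_of_nonneg_left k2 ha, mul_le_mul_of_nonneg_left k3 ha,
    mul_nonneg ha (Real.exp_pos (w x)).le]

/-- The energy inequality. -/
theorem energy {G g h : M.Fam (Mat n)} (hH : M.Met H) (hB : M.Form B) (hG : M.Met G)
    (hg : M.Met g) (hh : M.Met h) (ha : 0 < a) {b : ℝ}
    (hr : M.All fun c z => M.ric G c z = a • g c z + b • H c z + B c z - (1 + a) • G c z)
    {c : M.X → ℝ} (hc : Continuous c) :
    -∫ x, M.ip G h (M.ric G) x ∂M.mu G + b * ∫ x, M.ip G h H x ∂M.mu G +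
      ∫ x, M.ip G h B x ∂M.mu G ≤
      ∫ x, ((1 + a - 2 * c x) * M.tr G h x + c x ^ 2 * (M.tr g h x / a)) ∂M.mu G := by
  obtain ⟨-, hf, -, -, hi, -⟩ := mMU n M G hG
  have i := fun T hT => hi ℝ _ ((mINV n M G hG).2.2.1 h T hh.toTen hT).2.1.continuous
  have i1 := i _ ((mHES n M).2.2.2.2.2.2.2.2.1 G hG).toTen
  rw [← integral_neg', ← integral_const_mul, ← integral_add' i1.neg ((i H hH.toTen).const_mul b),
    ← integral_add' (i1.neg.add ((i H hH.toTen).const_mul b)) (i B hB.toTen)]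
  refine integral_mono ((i1.neg.add ((i H hH.toTen).const_mul b)).add (i B hB.toTen))
    (hi ℝ _ ?_) fun x => ?_
  · have := ((mINV n M G hG).1 h hh.toTen).2.1.continuous
    have := ((mINV n M g hg).1 h hh.toTen).2.1.continuous
    fun_prop
  · have k := mat_ineq (hG.ev_pos x) ((hg.smul ha).ev_pos x) (hh.ev_pos x).posSemidef (c x)
    have e1 : ((M.ev (a • g) x)⁻¹ * M.ev h x).trace.re = M.tr g h x / a := by
      rw [Matrix.inv_eq_left_inv (B := a⁻¹ • (M.ev g x)⁻¹) (by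
        rw [show M.ev (a • g) x = a • M.ev g x from rfl, Matrix.smul_mul, Matrix.mul_smul,
          inv_smul_smul₀ ha.ne', Matrix.nonsing_inv_mul _ (hg.ev_det x).isUnit]), Matrix.smul_mul,
        Matrix.trace_smul, smul_re, smul_eq_mul, div_eq_inv_mul, tr]
    rw [e1] at k
    change 2 * c x * M.tr G h x - _ ≤ M.ip G h (a • g) x at k
    simp only [Pi.add_apply, Pi.neg_apply]
    rw [ip_congr (G := G) (S := h) (T' := a • g + b • H + B - (1 + a) • G) (fun _ _ _ _ => rfl)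
      (fun _ _ _ _ => rfl) hr, ip_sub, ip_add, ip_add, ip_smul b, ip_smul (1 + a), hG.ip_self]
    linarith

lemma budget {X : Type} [TopologicalSpace X] [CompactSpace X] [MeasurableSpace X] [BorelSpace X]
    (μ : Measure X) [IsFiniteMeasure μ] {m m' s t : X → ℝ} (hm : Continuous m)
    (hm' : Continuous m') (hs : Continuous s) (ht : Continuous t) (m0 : ∀ x, 0 ≤ m x)
    (m0' : ∀ x, 0 ≤ m' x) (s0 : ∀ x, 0 ≤ s x) (t0 : ∀ x, 0 ≤ t x) {Q C b a δ : ℝ} (hQ : 0 ≤ Q)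
    (hb : 0 < b) (ha : 0 ≤ a) (h1 : a ≤ δ) (hδ : 0 < δ) (h2 : δ ≤ 1 / 2)
    (h : ∀ c : X → ℝ, Continuous c → Q + δ / b * ∫ x, s x ^ 2 * m x ∂μ ≤
      ∫ x, ((1 + a - 2 * c x) * s x + (1 + 2 * δ) * (c x ^ 2 * t x)) * m x ∂μ)
    (c1 : ∫ x, s x * m x ∂μ ≤ C) (c2 : ∫ x, t x * m' x ∂μ ≤ C)
    (c3 : ∫ x, |m x - m' x| ∂μ ≤ δ ^ 4) : Q + δ / b * ∫ x, s x ^ 2 * m x ∂μ ≤
      ∫ x, t x * m' x ∂μ - ∫ x, s x * m x ∂μ + (4 * C + 2 * C * b + 3) * δ := by
  have hi : ∀ f : X → ℝ, Continuous f → Integrable f μ := fun f hf =>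
    hf.integrable_of_hasCompactSupport (HasCompactSupport.of_compactSpace f)
  have p1 : 0 ≤ ∫ x, s x * m x ∂μ := integral_nonneg fun x => mul_nonneg (s0 x) (m0 x)
  have p2 : 0 ≤ ∫ x, t x * m' x ∂μ := integral_nonneg fun x => mul_nonneg (t0 x) (m0' x)
  have k0 := h (fun _ => 0) continuous_const
  simp only [mul_zero, sub_zero, ne_eq, OfNat.ofNat_ne_zero, not_false_eq_true, zero_pow, zero_mul,
    add_zero, mul_assoc, integral_const_mul] at k0
  have d3 : 0 < δ ^ 3 := by positivity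
  have q : ∀ x, 0 < 1 + δ ^ 3 * t x := fun x => by have := t0 x; positivity
  have hc : Continuous fun x => (1 + δ ^ 3 * t x)⁻¹ := Continuous.inv₀ (by fun_prop) fun x => (q x).ne'
  have i1 := hi (fun x => s x * m x) (hs.mul hm)
  have i2 := hi (fun x => s x ^ 2 * m x) (by fun_prop)
  have i3 := hi (fun x => t x * m' x) (ht.mul hm')
  have i4 := hi (fun x => |m x - m' x|) (by fun_prop)
  have k1 := (h _ hc).trans (integral_mono (hi _ (by fun_prop))
    ((((i1.const_mul (a - 1)).add (i2.const_mul (δ ^ 2))).add (i3.const_mul (1 + 2 * δ + δ))).add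
      (i4.const_mul ((1 + 2 * δ) / δ ^ 3 + 1 / δ ^ 2))) fun x => by
      simp only [Pi.add_apply]
      obtain ⟨c, e⟩ : ∃ c, c = (1 + δ ^ 3 * t x)⁻¹ := ⟨_, rfl⟩
      rw [← e]
      have a0 : 0 < c := e ▸ inv_pos.2 (q x)
      have a1 : 1 - c = c * (δ ^ 3 * t x) := by rw [e]; field_simp [(q x).ne']; ring
      have a2 := mul_nonneg d3.le (t0 x)
      have a3 : 0 ≤ 1 - c := a1 ▸ mul_nonneg a0.le a2
      have a4 := t0 x
      have b1 : c ^ 2 * t x ≤ t x := mul_le_of_le_one_left a4 (by nlinarith)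
      have b2 : c ^ 2 * t x ≤ 1 / δ ^ 3 := by rw [le_div_iff₀ d3]; nlinarith
      have b3 : 1 - c ≤ δ ^ 3 * t x := a1 ▸ mul_le_of_le_one_left a2 (by linarith)
      have b4 : 2 * (1 - c) * s x ≤ δ ^ 2 * s x ^ 2 + (1 - c) / δ ^ 2 := by
        rw [← sub_nonneg, show δ ^ 2 * s x ^ 2 + (1 - c) / δ ^ 2 - 2 * (1 - c) * s x =
          ((δ ^ 2 * s x - (1 - c)) ^ 2 + (1 - c) * c) / δ ^ 2 by field_simp; ring]
        positivity
      have b5 := le_abs_self (m x - m' x)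
      have b6 := abs_nonneg (m x - m' x)
      have b7 : c ^ 2 * t x * m x ≤ t x * m' x + 1 / δ ^ 3 * |m x - m' x| := by
        nlinarith [mul_le_mul_of_nonneg_right b1 (m0' x), mul_le_mul_of_nonneg_right b2 b6,
          mul_le_mul_of_nonneg_left b5 (mul_nonneg (sq_nonneg c) a4)]
      have b8 : (1 - c) * m x ≤ δ ^ 3 * (t x * m' x) + |m x - m' x| := by
        nlinarith [mul_le_mul_of_nonneg_right b3 (m0' x), mul_le_mul_of_nonneg_left b5 a3,
          mul_nonneg a0.le b6]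
      have b9 := div_le_div_of_nonneg_right b8 (sq_nonneg δ)
      rw [add_div, show δ ^ 3 * (t x * m' x) / δ ^ 2 = δ * (t x * m' x) by field_simp] at b9
      have b10 := mul_le_mul_of_nonneg_right b4 (m0 x)
      have b11 := mul_le_mul_of_nonneg_left b7 (show 0 ≤ 1 + 2 * δ by linarith)
      ring_nf at b9 b10 b11 ⊢
      linarith)
  rw [integral_add' (((i1.const_mul _).add (i2.const_mul _)).add (i3.const_mul _)) (i4.const_mul _),
    integral_add' ((i1.const_mul _).add (i2.const_mul _)) (i3.const_mul _),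
    integral_add' (i1.const_mul _) (i2.const_mul _), integral_const_mul, integral_const_mul,
    integral_const_mul, integral_const_mul] at k1
  have k2 := mul_le_mul_of_nonneg_left c3 (show 0 ≤ (1 + 2 * δ) / δ ^ 3 + 1 / δ ^ 2 by positivity)
  rw [show ((1 + 2 * δ) / δ ^ 3 + 1 / δ ^ 2) * δ ^ 4 = δ * (1 + 3 * δ) by field_simp; ring] at k2
  generalize ∫ x, s x ^ 2 * m x ∂μ = A at *
  have k3 : δ ^ 2 * A ≤ 2 * C * b * δ := by
    have : δ / b * A ≤ 2 * C := by nlinarith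
    rw [div_mul_eq_mul_div, div_le_iff₀ hb] at this
    nlinarith
  nlinarith [mul_le_mul h1 c1 p1 hδ.le, mul_le_mul_of_nonneg_left c2 hδ.le]

end Pool.Agent.Lib.W86
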