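import Pool.Agent.Lib.HW86.Bad
import Pool.Agent.Lib.HW68.Core

/-! Positive volume when the curvature bound is positive almost everywhere. -/

open scoped Topology ContDiff ComplexOrder Matrix ENNReal
open Filter Complex Set MeasureTheory

noncomputable section

namespace Pool.Agent.Lib.W86

open Pool.Agent.Lib.SV (E)
open Pool.Agent.Lib.HS32 Pool.Agent.Lib.HS32.Mf Pool.Agent.Lib.HS76 Pool.Agent.Lib.GH

variable {n : ℕ} {M : Mf n} [M.Cpt] {H T : M.Fam (Mat n)} {ε : ℝ} {u : M.X → ℝ} {kap : M.X → ℝ}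

lemma mean_tr (hH : M.Kae H) {k : ℕ} (hO : M.Ord H k) {u : ℝ → M.X → ℝ}
    (hu : ∀ ε, 0 < ε → M.Sol H ε (u ε)) :
    Tendsto (fun ε => (∫ x, ε * M.tr (M.gE H ε (u ε)) H x ∂M.mu (M.gE H ε (u ε))) / M.vol H ε)
      (𝓝[>] 0) (𝓝 k) := by
  obtain ⟨α, β, hm, hk⟩ := nodes_mat n
  obtain ⟨-, c, hc, hlim⟩ := id hO
  rw [(hk k hO.1).1]
  refine (tendsto_finsetSum _ fun a _ => (ord_ratio hc hlim (by positivity)).const_mul _).congr' ?_
  filter_upwards [self_mem_nhdsWithin] with ε hε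
  obtain ⟨v1, -⟩ := (vl n M H hH).1 ε _ (hu ε hε)
  have hG := (hu ε hε).kae.toMet
  generalize M.gE H ε (u ε) = G at *
  have hT : ∀ s : ℝ, M.Form (G + s • H) := fun s => hG.toForm.add (hH.toForm.smul s)
  have hd : ∀ s : ℝ, ∫ x, M.dq G (G + s • H) x ∂M.mu G = M.vol H (ε + s) := fun s => by
    rw [((mMU n M H hH.toMet).2.2.2.2.2.2 G hG).2.1, ← v1 s]
    exact integral_congr_ae (Eventually.of_forall fun x =>
      (((mINV n M H hH.toMet).2.2.2.2.2.2.2 G hG).2.2.1 _ (hT s) x).symm)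
  have hp : ∀ x, ε * M.tr G H x =
      ∑ a, α a * M.dq G (G + ((((a : ℕ) : ℝ) + 1) * ε) • H) x := fun x => by
    have h1 := (hm (M.ev G x) (ε • M.ev H x) (hG.ev_pos x) ((hH.toForm.smul ε).herm.ch x)).1
    simp only [smul_smul, Matrix.mul_smul, Matrix.trace_smul, smul_re, smul_eq_mul] at h1
    exact h1
  simp only [hp]
  rw [integral_finsetSum _ fun a _ => ((mMU n M G hG).2.2.2.2.1 ℝ _
    ((mINV n M G hG).1 _ (hT _).toTen).2.2.2.1.continuous).const_mul _, Finset.sum_div]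
  refine Finset.sum_congr rfl fun a _ => ?_
  rw [integral_const_mul, hd, mul_div_assoc, add_mul (1 : ℝ), one_mul]

lemma mean_le (hH : M.Kae H) (hT : M.Met T) (hk : Continuous kap) (k0 : ∀ x, 0 ≤ kap x)
    (hI : II M T kap) {c d a δ t : ℝ} (hc : 0 < n * c) (h1 : M.Le T (c • H)) (hd : 0 ≤ d)
    (h2 : M.Le H (d • T)) (hε : 0 < ε) (hu : M.Sol H ε u) (ha : ∀ x, u x ≤ a) (hδ : 0 < δ)
    (ht : 0 < t) : ∫ x, ε * M.tr (M.gE H ε u) H x ∂M.mu (M.gE H ε u) ≤
      d * ((t * (1 + (n * c) ^ 2) + ε * (n * c / (δ * t))) * M.vol H ε +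
        Real.exp a * (M.mu H).real {x | kap x ≤ δ} / t) := by
  obtain ⟨-, -, v2, -, v3⟩ := (vl n M H hH).1 ε u hu
  have k := ii_sol hH hT.toForm hI hu
  have hG := hu.kae.toMet
  generalize M.gE H ε u = G at *
  obtain ⟨-, hf, -, -, hi, -⟩ := mMU n M G hG
  obtain ⟨-, hf', -, -, hi', -⟩ := mMU n M H hH.toMet
  have sS := ((mINV n M G hG).1 T hT.toTen).2.1
  have i1 := hi ℝ _ sS.continuous
  have i2 := hi ℝ _ (sS.pow 2).continuous
  have i3 := hi ℝ (fun x => kap x * M.tr G T x ^ 2) (hk.mul (sS.pow 2).continuous)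
  have ms : MeasurableSet {x | kap x ≤ δ} := (isClosed_le hk continuous_const).measurableSet
  have i4 := (integrable_const (μ := M.mu G) (1 : ℝ)).indicator ms
  have p1 : ∀ x, M.tr G T x ^ 2 ≤ n * c * M.ip G T H x := fun x => by
    have b1 := tr_sq_le (hG.ev_pos x) (hT.ev_pos x).1
    have b2 := G34.ip_mono hG hT h1 x
    rw [ip_smul] at b2
    rw [Fintype.card_fin, ← Matrix.mul_assoc] at b1
    rw [mul_assoc]
    exact b1.trans (mul_le_mul_of_nonneg_left b2 n.cast_nonneg)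
  obtain ⟨b, hb⟩ : ∃ b, b = n * c := ⟨_, rfl⟩
  rw [← hb] at hc p1 ⊢
  have q1 := integral_mono i2 ((hi ℝ _ ((mINV n M G hG).2.2.1 T H hT.toTen
    hH.toTen).2.1.continuous).const_mul b) p1
  have q2 := integral_mono (i1.const_mul (2 * (ε * b))) ((i2.const_mul (ε ^ 2)).add
    (integrable_const (b ^ 2))) fun x => by
      simp only [Pi.add_apply]
      nlinarith [sq_nonneg (ε * M.tr G T x - b)]
  have q3 := integral_mono ((hi ℝ _ ((mINV n M G hG).1 H hH.toTen).2.1.continuous).const_mul ε)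
    (((((integrable_const t).add (i3.const_mul (ε ^ 2 / (δ * t)))).add
      (i2.const_mul (t * ε ^ 2))).add (i4.const_mul t⁻¹)).const_mul d) fun x => by
      have b1 := hG.tr_mono h2 x
      rw [tr_smul] at b1
      refine (mul_le_mul_of_nonneg_left b1 hε.le).trans ?_
      rw [mul_left_comm]
      refine mul_le_mul_of_nonneg_left ?_ hd
      simp only [Pi.add_apply]
      have := k0 x
      generalize M.tr G T x = S
      by_cases k1 : kap x ≤ δ
      · rw [indicator_of_mem (show x ∈ {x | kap x ≤ δ} from k1), mul_one, add_assoc]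
        refine le_add_of_nonneg_of_le (by positivity) ?_
        rw [← sub_nonneg, show t * ε ^ 2 * S ^ 2 + t⁻¹ - ε * S =
          ((t * ε * S - 1 / 2) ^ 2 + 3 / 4) / t by field_simp; ring]
        positivity
      · rw [indicator_of_notMem (show x ∉ {x | kap x ≤ δ} from k1), mul_zero, add_zero]
        refine le_add_of_le_of_nonneg (le_trans ?_ (add_le_add le_rfl (mul_le_mul_of_nonneg_left
          (mul_le_mul_of_nonneg_right (not_le.1 k1).le (sq_nonneg S)) (by positivity))))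
          (by positivity)
        rw [← sub_nonneg, show t + ε ^ 2 / (δ * t) * (δ * S ^ 2) - ε * S =
          ((ε * S - t / 2) ^ 2 + 3 / 4 * t ^ 2) / t by field_simp; ring]
        positivity
  have q4 : ∫ x, {x | kap x ≤ δ}.indicator (fun _ => (1 : ℝ)) x ∂M.mu G ≤
      Real.exp a * (M.mu H).real {x | kap x ≤ δ} := by
    rw [v3, mul_comm, ← smul_eq_mul, ← integral_indicator_const _ ms]
    refine integral_mono_of_nonneg (Eventually.of_forall fun x => mul_nonneg
      (indicator_nonneg (fun _ _ => zero_le_one) x) (Real.exp_pos _).le)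
      ((integrable_const _).indicator ms) (Eventually.of_forall fun x => ?_)
    by_cases k1 : x ∈ {x | kap x ≤ δ}
    · simpa only [indicator_of_mem k1, one_mul] using Real.exp_le_exp.2 (ha x)
    · simp only [indicator_of_notMem k1, zero_mul, le_refl]
  rw [integral_const_mul] at q1
  rw [integral_add' (i2.const_mul _) (integrable_const _), integral_const_mul, integral_const_mul,
    integral_const, v2, smul_eq_mul] at q2
  rw [integral_const_mul d, integral_add' (((integrable_const t).add (i3.const_mul _)).add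
    (i2.const_mul _)) (i4.const_mul _), integral_add' ((integrable_const t).add (i3.const_mul _))
    (i2.const_mul _), integral_add' (integrable_const t) (i3.const_mul _), integral_const_mul,
    integral_const_mul, integral_const_mul, integral_const_mul, integral_const, v2,
    smul_eq_mul] at q3
  rw [integral_const_mul]
  refine q3.trans (mul_le_mul_of_nonneg_left ?_ hd)
  have A0 : 0 ≤ ∫ x, kap x * M.tr G T x ^ 2 ∂M.mu G :=
    integral_nonneg fun x => mul_nonneg (k0 x) (sq_nonneg _)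
  have B0 : 0 ≤ ∫ x, M.tr G T x ^ 2 ∂M.mu G := integral_nonneg fun x => sq_nonneg _
  generalize ∫ x, kap x * M.tr G T x ^ 2 ∂M.mu G = A at *
  generalize ∫ x, M.tr G T x ^ 2 ∂M.mu G = B at *
  have r1 : ε * b * A + ε ^ 2 * B ≤ M.vol H ε * b ^ 2 := by
    nlinarith [mul_le_mul_of_nonneg_left k (mul_pos hε hc).le,
      mul_le_mul_of_nonneg_left q1 (sq_nonneg ε)]
  have r2 : ε * A ≤ b * M.vol H ε :=
    le_of_mul_le_mul_left (by nlinarith [mul_nonneg (sq_nonneg ε) B0]) hc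
  have r3 : ε ^ 2 * B ≤ M.vol H ε * b ^ 2 := by nlinarith [mul_nonneg (mul_pos hε hc).le A0]
  have r4 := mul_le_mul_of_nonneg_left r2 (show 0 ≤ ε / (δ * t) by positivity)
  have r5 := mul_le_mul_of_nonneg_left r3 ht.le
  have r6 := mul_le_mul_of_nonneg_left q4 (inv_pos.2 ht).le
  rw [div_eq_inv_mul _ t]
  calc _ = M.vol H ε * t + ε / (δ * t) * (ε * A) + t * (ε ^ 2 * B) + _ := by ring
    _ ≤ M.vol H ε * t + ε / (δ * t) * (b * M.vol H ε) + t * (M.vol H ε * b ^ 2) + _ :=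
      add_le_add (add_le_add (add_le_add le_rfl r4) r5) r6
    _ = _ := by ring

/-- The volume is positive, for a metric with a bound that is positive almost everywhere. -/
theorem vol_pos_ae (hn : 0 < n) (hH : M.Kae H) (hs : ∀ ε : ℝ, 0 < ε → ∃ u, M.Sol H ε u)
    (hT : M.Met T) (hk : Continuous kap) (k0 : ∀ x, 0 ≤ kap x) (ae : ∀ᵐ x ∂M.mu H, 0 < kap x)
    (hI : II M T kap) : 0 < M.vol H 0 := by
  choose! u hu using hs
  have vp := fun ε hε => ((vl n M H hH).1 ε _ (hu ε hε)).2.2.2.1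
  obtain ⟨k, hO⟩ := (vl n M H hH).2 vp
  rcases k.eq_zero_or_pos with rfl | k1
  · obtain ⟨-, c, hc, hl⟩ := hO
    simp only [pow_zero, div_one] at hl
    rwa [tendsto_nhds_unique (((vol_cont hH).tendsto 0).mono_left nhdsWithin_le_nhds) hl]
  exfalso
  obtain ⟨c, c0, h1, -⟩ := (mBD n M H hH.toMet).1 T hT.toForm
  obtain ⟨d, d0, h2, -⟩ := (mBD n M T hT).1 H hH.toForm
  obtain ⟨C, C0, hC⟩ := phi hH
  have hf := (mMU n M H hH.toMet).2.1
  have b0 : 0 < n * c := by positivity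
  have s1 : ∀ t : ℝ, 0 < t → ∀ δ : ℝ, 0 < δ → (k : ℝ) ≤ d * (t * (1 + (n * c) ^ 2) +
      0 * (n * c / (δ * t)) + C * (M.mu H).real {x | kap x ≤ δ} / t) := fun t ht δ hδ => by
    refine le_of_tendsto_of_tendsto (mean_tr hH hO hu) ((((((tendsto_id.mono_left
      nhdsWithin_le_nhds).mul_const _).const_add _).add_const _).const_mul _)) ?_
    filter_upwards [Ioc_mem_nhdsGT (zero_lt_one' ℝ)] with ε hε
    obtain ⟨a, a1, -, a3⟩ := hC ε hε _ (hu ε hε.1)
    rw [div_le_iff₀ (vp ε hε.1), mul_assoc, add_mul _ (_ / t)]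
    refine (mean_le hH hT hk k0 hI b0 h1 d0.le h2 hε.1 (hu ε hε.1) a1 hδ ht).trans
      (mul_le_mul_of_nonneg_left (add_le_add le_rfl ?_) d0.le)
    rw [div_mul_eq_mul_div, mul_right_comm]
    gcongr
  have s2 : Tendsto (fun δ : ℝ => (M.mu H).real {x | kap x ≤ δ}) (𝓝[>] 0) (𝓝 0) := by
    have := tendsto_measure_biInter_gt (μ := M.mu H) (s := fun δ : ℝ => {x | kap x ≤ δ}) (a := 0)
      (fun r _ => (isClosed_le hk continuous_const).measurableSet.nullMeasurableSet)
      (fun i j _ h x hx => le_trans hx h) ⟨1, one_pos, measure_ne_top _ _⟩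
    rw [measure_mono_null (fun x hx => ?_) ae] at this
    · exact (ENNReal.tendsto_toReal ENNReal.zero_ne_top).comp this
    · exact not_lt.2 (le_of_forall_gt_imp_ge_of_dense fun r hr => mem_iInter₂.1 hx r hr)
  have s3 : ∀ t : ℝ, 0 < t → (k : ℝ) ≤ d * (t * (1 + (n * c) ^ 2) + C * 0 / t) := fun t ht => by
    refine ge_of_tendsto ((((s2.const_mul C).div_const t).const_add _).const_mul d) ?_
    filter_upwards [self_mem_nhdsWithin] with δ hδ
    simpa only [zero_mul, add_zero] using s1 t ht δ hδ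
  have s4 := s3 (1 / (2 * (d * (1 + (n * c) ^ 2)))) (by positivity)
  rw [mul_zero, zero_div, add_zero, show d * (1 / (2 * (d * (1 + (n * c) ^ 2))) *
    (1 + (n * c) ^ 2)) = 1 / 2 by field_simp] at s4
  linarith [(Nat.one_le_cast.2 k1 : (1 : ℝ) ≤ k)]

/-- The canonical bundle is nef. -/
def Nef (M : Mf n) (H : M.Fam (Mat n)) : Prop :=
  ∀ ε : ℝ, 0 < ε → ∃ w, M.Sm w ∧ M.All fun e z => (M.gE H ε w e z).PosDef

theorem Nef.sol (h : Nef M H) (hA : HS.St_AUBIN) (hn : 0 < n) (hH : M.Kae H) (ε : ℝ)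
    (hε : 0 < ε) : ∃ u, M.Sol H ε u :=
  (h ε hε).elim fun _ k => sol_of_pos hA hn hH k.1 k.2

/-- Both cases, from the inequality along discs. -/
theorem vol_of_dsc (hA : HS.St_AUBIN) (hn : 0 < n) (hH : M.Kae H) (hN : Nef M H) (hT : M.Form T)
    (T0 : M.Le 0 T) (hk : Continuous kap) (hD : HW68.Dsc M T kap)
    (h : ((∀ x, 0 < kap x) ∧ ∃ x, (M.ev T x).PosDef) ∨
      ((∀ x, (M.ev T x).PosDef) ∧ (∀ x, 0 ≤ kap x) ∧ ∀ᵐ x ∂M.mu H, 0 < kap x)) :
    0 < M.vol H 0 := by
  rcases h with ⟨h1, x, hx⟩ | ⟨h1, h2, h3⟩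
  · obtain ⟨y, -, hy⟩ := isCompact_univ.exists_isMinOn ⟨x, mem_univ x⟩ hk.continuousOn
    refine vol_pos hn hH (hN.sol hA hn hH) hT T0 hx (h1 y) fun G hG =>
      HW68.int_ineq M hG hT continuous_const (fun _ => (h1 y).le) fun x => ?_
    obtain ⟨e, he, k1, k2⟩ := hD x
    exact ⟨e, he, k1, fun v w =>
      (mul_le_mul_of_nonneg_right (hy (mem_univ x)) (sq_nonneg _)).trans (k2 v w)⟩
  · refine vol_pos_ae hn hH (hN.sol hA hn hH) ⟨hT, fun e he z hz => ?_⟩ hk h2 h3 fun G hG =>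
      HW68.int_ineq M hG hT hk h2 hD
    have dv := (mINV n M H hH.toMet).2.1 T hT
    have k1 := (AllOn.ch dv (e.symm z)).2.2
    have k2 := (dv e he z hz).2.2
    have k3 := pd_det_re (h1 (e.symm z))
    rw [ch_symm] at k1
    rw [ev, k1] at k3
    have k4 := mul_pos ((mul_pos_iff_of_pos_right (pd_det_re (hH.toMet.ev_pos _))).1 k3)
      (pd_det_re (hH.pos e he z hz))
    have k5 : (T e z).PosSemidef := by simpa using T0 e he z hz
    exact k5.posDef_iff_det_ne_zero.2 fun k => by simp [← k2, k] at k4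

end Pool.Agent.Lib.W86
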