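import Pool.Agent.Lib.HW86.Vol

/-! Metrics on the canonical bundle whose curvature is positive outside a set of small measure. -/

open scoped Topology ContDiff ComplexOrder Matrix ENNReal
open Filter Complex Set MeasureTheory

noncomputable section

namespace Pool.Agent.Lib.W86

open Pool.Agent.Lib.SV (E)
open Pool.Agent.Lib.HS32 Pool.Agent.Lib.HS32.Mf Pool.Agent.Lib.HS76 Pool.Agent.Lib.GH

variable {n : ℕ} {M : Mf n} [M.Cpt] {H : M.Fam (Mat n)} {ε : ℝ} {u : M.X → ℝ}

lemma bad_one (hH : M.Kae H) (hε : 0 < ε) (hu : M.Sol H ε u) :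
    ∃ (T : M.Fam (Mat n)) (w : M.X → ℝ) (Om : Set M.X), M.Kae T ∧ M.Sm w ∧
      M.Le (-T) (M.theta T w) ∧ M.Le (M.theta T w) T ∧ IsClosed Om ∧
      (M.All fun e z => e.symm z ∈ Om → (M.theta T w e z - (1 / 2 : ℝ) • T e z).PosSemidef) ∧
      (M.mu T).real Omᶜ ≤ 4 * (M.vol H (ε + ε) - M.vol H ε) ∧
      (M.mu T).real univ = M.vol H (ε + ε) := by
  obtain ⟨v0, -, v2, -, -⟩ := (vl n M H hH).1 ε u hu
  have hr := G34.sol_ric hH (solB hu)
  rw [gB_zero] at hr
  have hG := hu.kae
  generalize M.gE H ε u = G at *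
  have hE := hH.smul hε
  have hT : M.Kae (G + ε • H) := ⟨hG.toClo.add hE.toClo, fun e he z hz =>
    (hG.pos e he z hz).add (hE.pos e he z hz)⟩
  obtain ⟨sw, hw⟩ := (mHES n M).2.2.2.2.2.2.2.2.2 G _ hG.toMet hT.toMet
  have th : M.All fun e z => M.theta (G + ε • H) (fun x => Real.log (M.dq (G + ε • H) G x)) e z =
      G e z - ε • H e z := fun e he z hz => by
    have a := hw e he z hz
    have b := hr e he z hz
    beta_reduce at a b ⊢
    rw [Pi.zero_apply, Pi.zero_apply, add_zero, a] at b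
    rw [theta, Pi.sub_apply, Pi.sub_apply, ← neg_sub, b, neg_sub]
  obtain ⟨-, hf, -, -, hi, -, hc⟩ := mMU n M G hG.toMet
  obtain ⟨i1, -, -, -, -, -, -, i2⟩ := mINV n M G hG.toMet
  have sS := (i1 _ hE.toTen).2.1
  have sD := (i1 _ hT.toTen).2.2.2.1
  have cO : IsClosed {x | 3 * M.tr G (ε • H) x ≤ 1} :=
    isClosed_le (sS.const_mul 3).continuous continuous_const
  have e1 : ∀ S : Set M.X, MeasurableSet S → (M.mu (G + ε • H)).real S =
      ∫ x, M.dq G (G + ε • H) x * S.indicator 1 x ∂M.mu G := fun S hS => by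
    rw [← (hc _ hT.toMet).2.1, integral_indicator_one hS]
  have e2 : ∫ x, M.dq G (G + ε • H) x ∂M.mu G = M.vol H (ε + ε) := by
    rw [((mMU n M H hH.toMet).2.2.2.2.2.2 G hG.toMet).2.1, ← v0 ε]
    exact integral_congr_ae (Eventually.of_forall fun x =>
      (((mINV n M H hH.toMet).2.2.2.2.2.2.2 G hG.toMet).2.2.1 _ hT.toForm x).symm)
  refine ⟨_, _, _, hT, sw, fun e he z hz => ?_, fun e he z hz => ?_, cO, fun e he z hz hx => ?_,
    ?_, ?_⟩
  · beta_reduce
    rw [th e he z hz, show G e z - ε • H e z - (-(G + ε • H)) e z = G e z + G e z by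
      simp only [Pi.neg_apply, Pi.add_apply, Pi.smul_apply]; abel]
    exact ((hG.pos e he z hz).add (hG.pos e he z hz)).posSemidef
  · beta_reduce
    rw [th e he z hz, show (G + ε • H) e z - (G e z - ε • H e z) = (ε • H) e z + (ε • H) e z by
      simp only [Pi.add_apply, Pi.smul_apply]; abel]
    exact ((hE.pos e he z hz).add (hE.pos e he z hz)).posSemidef
  · have a : M.tr G (ε • H) (e.symm z) = _ := (i1 _ hE.toTen).1 e he z hz
    have b := le_tr_smul (c := 1 / 3) (hG.pos e he z hz) (hE.pos e he z hz).posSemidef (by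
      have : 3 * M.tr G (ε • H) (e.symm z) ≤ 1 := hx
      linarith)
    rw [← rsm] at b
    rw [th e he z hz, show G e z - ε • H e z - (1 / 2 : ℝ) • (G + ε • H) e z =
      (3 / 2 : ℝ) • ((1 / 3 : ℝ) • G e z - (ε • H) e z) by
        simp only [Pi.add_apply, Pi.smul_apply]; module]
    exact psd_rsmul b (by norm_num)
  · rw [e1 _ cO.measurableSet.compl, ← e2, ← v2, show (M.mu G).real univ = ∫ _, 1 ∂M.mu G by simp,
      ← integral_sub (hi ℝ _ sD.continuous) (integrable_const _), ← integral_const_mul]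
    refine integral_mono_of_nonneg (Eventually.of_forall fun x => mul_nonneg
      ((i2 _ hT.toMet).1 x).le (indicator_nonneg (fun _ _ => zero_le_one) x))
      (((hi ℝ _ sD.continuous).sub (integrable_const _)).const_mul _)
      (Eventually.of_forall fun x => ?_)
    have a := det_add_ge (hG.toMet.ev_pos x) (hE.toMet.ev_pos x).posSemidef
    have b := (AllOn.ch ((mINV n M G hG.toMet).2.1 _ hT.toForm) x).2.2
    rw [ch_symm] at b
    have c : 1 + M.tr G (ε • H) x ≤ M.dq G (G + ε • H) x := by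
      refine le_of_mul_le_mul_right ?_ (det_re_pos (hG.toMet.ev_pos x))
      rw [mul_comm]
      exact a.trans_eq b
    have d := hG.toMet.tr_nonneg hE.toMet.nonneg x
    beta_reduce
    by_cases k : 3 * M.tr G (ε • H) x ≤ 1
    · rw [indicator_of_notMem (not_not.2 k), mul_zero]
      linarith
    · rw [indicator_of_mem k, Pi.one_apply, mul_one]
      linarith
  · rw [e1 _ MeasurableSet.univ, ← e2]
    simp

/-- The bad set has small measure. -/
theorem bad (hH : M.Kae H) (hs : ∀ ε : ℝ, 0 < ε → ∃ u, M.Sol H ε u) {δ : ℝ} (hδ : 0 < δ) :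
    ∃ (T : M.Fam (Mat n)) (w : M.X → ℝ) (Om : Set M.X), M.Kae T ∧ M.Sm w ∧
      M.Le (-T) (M.theta T w) ∧ M.Le (M.theta T w) T ∧ IsClosed Om ∧
      (M.All fun e z => e.symm z ∈ Om → (M.theta T w e z - (1 / 2 : ℝ) • T e z).PosSemidef) ∧
      (M.mu T).real Omᶜ ≤ δ ∧ M.vol H 0 - δ ≤ (M.mu T).real Om := by
  have c1 := (vol_cont hH).comp (continuous_id.add continuous_id)
  have a := ((c1.sub (vol_cont hH)).const_mul 4).continuousAt.eventually_lt (x₀ := 0)
    (continuousAt_const (y := δ / 2)) (by simpa using hδ)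
  have b := (continuousAt_const (y := M.vol H 0 - δ / 2)).eventually_lt (x₀ := 0) c1.continuousAt
    (by simpa using hδ)
  obtain ⟨ε, ⟨h1, h2⟩, hε⟩ :=
    (((a.and b).filter_mono nhdsWithin_le_nhds).and (self_mem_nhdsWithin (s := Ioi 0))).exists
  obtain ⟨u, hu⟩ := hs ε hε
  obtain ⟨T, w, Om, k1, k2, k3, k4, k5, k6, k7, k8⟩ := bad_one hH hε hu
  have := (mMU n M T k1.toMet).2.1
  have k9 := measureReal_add_measureReal_compl (μ := M.mu T) k5.measurableSet
  simp only [Function.comp, id, Pi.add_apply, Pi.sub_apply] at h1 h2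
  exact ⟨T, w, Om, k1, k2, k3, k4, k5, k6, by linarith, by linarith⟩

end Pool.Agent.Lib.W86
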