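import Pool.Agent.Lib.KR88.Mean
import Pool.Agent.Lib.GH.B_GSB
import Pool.Agent.Lib.RB.Nef
import Pool.Agent.Lib.HS.B_VOL

/-! The integrated inequality of Schwarz type forces positive volume of the canonical class. -/

open scoped Topology ContDiff ComplexOrder Matrix ENNReal
open Filter Complex Set MeasureTheory

noncomputable section

namespace Pool.Agent.Lib.W86

open Pool.Agent.Lib.SV (E)
open Pool.Agent.Lib.HS32 Pool.Agent.Lib.HS32.Mf Pool.Agent.Lib.HS76 Pool.Agent.Lib.GH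

variable {n : ℕ}

/-- The integrated inequality, for all Kähler metrics. -/
def II (M : Mf n) (T : M.Fam (Mat n)) (kap : M.X → ℝ) : Prop := ∀ G, M.Kae G →
  ∫ x, kap x * M.tr G T x ^ 2 ∂M.mu G ≤ -2 * ∫ x, M.ip G T (M.ric G) x ∂M.mu G

lemma vanish {X : Type} [TopologicalSpace X] [CompactSpace X] [MeasurableSpace X] [BorelSpace X]
    (μ : Measure X) [IsFiniteMeasure μ] [μ.IsOpenPosMeasure] {c : X → ℝ} (hc : Continuous c)
    (c0 : ∀ x, 0 ≤ c x) {C : ℝ} (h : ∀ δ : ℝ, 0 < δ → ∃ φ : X → ℝ, Continuous φ ∧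
      ∫ x, Real.exp (φ x) * c x ∂μ ≤ δ ∧ ∀ L : ℝ, 0 < L → μ.real {x | φ x ≤ -L} ≤ C / L)
    (x : X) : c x ≤ 0 := by
  have hi : ∀ f : X → ℝ, Continuous f → Integrable f μ := fun f hf =>
    hf.integrable_of_hasCompactSupport (HasCompactSupport.of_compactSpace f)
  obtain ⟨y, -, hy⟩ := isCompact_univ.exists_isMaxOn ⟨x, mem_univ x⟩ hc.continuousOn
  have key : ∀ L : ℝ, 0 < L → ∫ x, c x ∂μ ≤ 0 + c y * C / L := fun L L0 => by
    rw [zero_add]
    refine le_of_forall_pos_le_add fun δ hδ => ?_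
    obtain ⟨φ, h1, h2, h3⟩ := h (δ / Real.exp L) (by positivity)
    have ms : MeasurableSet {x | φ x ≤ -L} := (isClosed_le h1 continuous_const).measurableSet
    have i1 := (hi (fun x => Real.exp (φ x) * c x) (h1.rexp.mul hc)).const_mul (Real.exp L)
    have i2 := (integrable_const (μ := μ) (c y)).indicator ms
    have k := integral_mono (hi c hc) (i1.add i2) fun x => by
      have := c0 x
      simp only [Pi.add_apply]
      by_cases k9 : φ x ≤ -L
      · rw [indicator_of_mem (show x ∈ {x | φ x ≤ -L} from k9)]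
        exact le_add_of_nonneg_of_le (by positivity) (hy (mem_univ x))
      · rw [indicator_of_notMem (show x ∉ {x | φ x ≤ -L} from k9), add_zero, ← mul_assoc,
          ← Real.exp_add]
        exact le_mul_of_one_le_left this (Real.one_le_exp (by linarith))
    rw [integral_add' i1 i2, integral_const_mul, integral_indicator_const _ ms, smul_eq_mul] at k
    rw [le_div_iff₀' (Real.exp_pos L)] at h2
    have k2 := mul_le_mul_of_nonneg_right (h3 L L0) (c0 y)
    rw [mul_div_assoc]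
    linarith
  have z2 : ∫ x, c x ∂μ ≤ 0 + 0 :=
    ge_of_tendsto ((tendsto_const_nhds.div_atTop tendsto_id).const_add _)
      ((eventually_gt_atTop 0).mono key)
  by_contra k
  have := hc.integral_pos_of_hasCompactSupport_nonneg_nonzero (μ := μ)
    (HasCompactSupport.of_compactSpace c) c0 (not_le.1 k).ne'
  linarith

variable {M : Mf n} {H T : M.Fam (Mat n)} {ε : ℝ} {u : M.X → ℝ} {kap : M.X → ℝ}

lemma gB_zero : M.gB H 0 ε u = M.gE H ε u := by rw [gB, add_zero, gE]

lemma solB (hu : M.Sol H ε u) : M.SolB H 0 ε u :=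
  ⟨hu.sm, gB_zero ▸ hu.kae, gB_zero ▸ hu.det⟩

lemma ip_ric (hH : M.Kae H) (hu : M.Sol H ε u) (x : M.X) :
    M.ip (M.gE H ε u) T (M.ric (M.gE H ε u)) x =
      ε * M.ip (M.gE H ε u) T H x - M.tr (M.gE H ε u) T x := by
  have hr := G34.sol_ric hH (solB hu)
  rw [gB_zero] at hr
  rw [ip_congr (G := M.gE H ε u) (S := T) (T' := ε • H + 0 - M.gE H ε u) (fun _ _ _ _ => rfl)
    (fun _ _ _ _ => rfl) hr, add_zero, ip_sub, ip_smul, hu.kae.toMet.ip_self]

variable [M.Cpt]

lemma vl : HS.St_VOL := HS.st_VOL mTR mINV mHES mMU mCOH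

/-- Solvability in the classes that contain a positive form. -/
theorem sol_of_pos (hA : HS.St_AUBIN) (hn : 0 < n) (hH : M.Kae H) {w : M.X → ℝ} (hw : M.Sm w)
    (hp : M.All fun e z => (M.gE H ε w e z).PosDef) : ∃ u, M.Sol H ε u := by
  obtain ⟨u, u1, u2, u3⟩ := RB.solve hA hn hH.toMet (T := ε • H) hw
    ⟨((hH.toClo.smul ε).sub ((mHES n M).2.2.2.2.2.2.2.2.1 H hH.toMet)).add ((mHES n M).1 _ hw), hp⟩
  exact ⟨u, u1, u2, u3⟩

lemma ii_sol (hH : M.Kae H) (hT : M.Form T) (hI : II M T kap) (hu : M.Sol H ε u) :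
    ∫ x, kap x * M.tr (M.gE H ε u) T x ^ 2 ∂M.mu (M.gE H ε u) +
      2 * ε * ∫ x, M.ip (M.gE H ε u) T H x ∂M.mu (M.gE H ε u) ≤
      2 * ∫ x, M.tr (M.gE H ε u) T x ∂M.mu (M.gE H ε u) := by
  have k := hI _ hu.kae
  simp only [ip_ric hH hu] at k
  have hi := (mMU n M _ hu.kae.toMet).2.2.2.2.1 ℝ
  rw [integral_sub ((hi _ ((mINV n M _ hu.kae.toMet).2.2.1 T H hT.toTen
    hH.toTen).2.1.continuous).const_mul ε) (hi _ ((mINV n M _ hu.kae.toMet).1 T
    hT.toTen).2.1.continuous), integral_const_mul] at k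
  linarith

lemma phi (hH : M.Kae H) : ∃ C : ℝ, 0 < C ∧ ∀ ε ∈ Ioc (0 : ℝ) 1, ∀ u, M.Sol H ε u → ∃ a,
    (∀ x, u x ≤ a) ∧ (∀ L : ℝ, 0 < L → (M.mu H).real {x | u x - a ≤ -L} ≤ C / L) ∧
      Real.exp a ≤ C * M.vol H ε := by
  obtain ⟨C, C0, hC⟩ := K88.phi hH (B := 0) (by simpa using hH.toClo.smul 0)
  refine ⟨C, C0, fun ε hε u hu => ?_⟩
  obtain ⟨a, h1, h2⟩ := hC ε hε u (solB hu)
  rw [← add_sub_assoc, add_zero] at h2
  exact ⟨a, h1.le, h1.sub, h2⟩

lemma vol_cont (hH : M.Kae H) : Continuous (M.vol H) := by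
  have := K88.vol_cont hH.toMet ((mHES n M).2.2.2.2.2.2.2.2.1 H hH.toMet).neg.toForm
  simp only [← sub_eq_add_neg] at this
  exact this

/-- The volume is positive, for a non-negative form that is positive at one point. -/
theorem vol_pos (hn : 0 < n) (hH : M.Kae H) (hs : ∀ ε : ℝ, 0 < ε → ∃ u, M.Sol H ε u)
    (hT : M.Form T) (T0 : M.Le 0 T) {x₀ : M.X} (hx : (M.ev T x₀).PosDef) {κ : ℝ} (hκ : 0 < κ)
    (hI : II M T fun _ => κ) : 0 < M.vol H 0 := by
  by_contra h0
  obtain ⟨-, hf, ho, hm, hi, -⟩ := mMU n M H hH.toMet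
  obtain ⟨C, C0, hC⟩ := phi hH
  have sd := ((mINV n M H hH.toMet).1 T hT.toTen).2.2.2.1.continuous
  have tp : ∀ x, (M.ev T x).PosSemidef := fun x => by simpa [ev] using AllOn.ch T0 x
  have dv : ∀ x, (M.ev T x).det.re = M.dq H T x * (M.ev H x).det.re := fun x => by
    simpa only [ch_symm, ev] using (AllOn.ch ((mINV n M H hH.toMet).2.1 T hT) x).2.2
  have := vanish (M.mu H) (c := fun x => min 1 (M.dq H T x) ^ 2)
    ((continuous_const.min sd).pow 2) (fun x => sq_nonneg _) (C := C) (fun δ hδ => ?_) x₀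
  · have k := pd_det_re hx
    rw [dv] at k
    exact this.not_gt (pow_pos (lt_min one_pos
      ((mul_pos_iff_of_pos_right (pd_det_re (hH.toMet.ev_pos _))).1 k)) 2)
  obtain ⟨R, R1, hR⟩ : ∃ R : ℝ, 1 ≤ R ∧ 4 / κ ^ 2 * (M.mu H).real univ / δ ≤ R :=
    ⟨_, le_max_left _ _, le_max_right _ _⟩
  have ev := (((vol_cont hH).tendsto 0).const_mul C).eventually (gt_mem_nhds (show C * M.vol H 0 <
    (R ^ n)⁻¹ from (mul_nonpos_of_nonneg_of_nonpos C0.le (not_lt.1 h0)).trans_lt (by positivity)))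
  obtain ⟨ε, h1, hε⟩ := ((ev.filter_mono nhdsWithin_le_nhds).and
    (Ioc_mem_nhdsGT (zero_lt_one' ℝ))).exists
  obtain ⟨u, hu⟩ := hs ε hε.1
  obtain ⟨a, a1, a2, a3⟩ := hC ε hε u hu
  refine ⟨fun x => u x - a, (hu.sm.sub (sm_const a)).continuous, ?_, a2⟩
  obtain ⟨-, v1, v2, -, v3⟩ := (vl n M H hH).1 ε u hu
  have k := ii_sol hH hT hI hu
  have d := G34.sol_det hH (solB hu)
  rw [gB_zero] at d
  have hG := hu.kae
  generalize M.gE H ε u = G at *
  obtain ⟨-, hf', -, -, hi', -⟩ := mMU n M G hG.toMet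
  have sS := ((mINV n M G hG.toMet).1 T hT.toTen).2.1
  have k1 : 0 ≤ ∫ x, M.ip G T H x ∂M.mu G := integral_nonneg fun x => by
    have := G34.ip_mono hG.toMet hH.toMet T0 x
    rwa [← zero_smul ℝ H, ip_smul, zero_mul, ip_comm] at this
  have k2 := integral_mono (μ := M.mu G) ((hi' ℝ _ sS.continuous).const_mul 2)
    (((hi' ℝ _ (sS.pow 2).continuous).const_mul (κ / 2)).add (integrable_const (2 / κ))) fun x => by
      simp only [Pi.add_apply]
      rw [← sub_nonneg, show κ / 2 * M.tr G T x ^ 2 + 2 / κ - 2 * M.tr G T x =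
        (κ * M.tr G T x - 2) ^ 2 / (2 * κ) by field_simp; ring]
      positivity
  rw [integral_add' ((hi' ℝ _ (sS.pow 2).continuous).const_mul _) (integrable_const _),
    integral_const_mul, integral_const_mul, integral_const, v2, smul_eq_mul] at k2
  rw [integral_const_mul] at k
  have k3 : ∫ x, M.tr G T x ^ 2 ∂M.mu G ≤ 4 / κ ^ 2 * M.vol H ε := by
    have := mul_nonneg hε.1.le k1
    rw [div_mul_eq_mul_div, le_div_iff₀ (by positivity)]
    have e : M.vol H ε * (2 / κ) * κ = 2 * M.vol H ε := by field_simp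
    nlinarith
  have k4 : M.vol H ε ≤ (M.mu H).real univ * Real.exp a := by
    have := integral_mono (μ := M.mu H) (hi ℝ _ hu.sm.exp.continuous)
      (integrable_const (Real.exp a)) fun x => Real.exp_le_exp.2 (a1 x)
    rwa [v1, integral_const, smul_eq_mul] at this
  have k5 : ∀ x, Real.exp (u x - a) * min 1 (M.dq H T x) ^ 2 ≤
      (R * Real.exp a)⁻¹ * (M.tr G T x ^ 2 * Real.exp (u x)) := fun x => by
    have p := pd_det_re (hH.toMet.ev_pos x)
    have b1 := det_le_of_le (hG.toMet.ev_pos x) (tp x)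
      (le_tr_smul (hG.toMet.ev_pos x) (tp x) le_rfl)
    have b2 := AllOn.ch d x
    rw [ch_symm] at b2
    rw [Fintype.card_fin, dv, show (M.ev G x).det.re = _ from b2, ← mul_assoc] at b1
    have b3 : M.dq H T x ≤ M.tr G T x ^ n * Real.exp (u x) := le_of_mul_le_mul_right b1 p
    have b4 : 0 ≤ M.dq H T x := by
      have := (Complex.le_def.1 (tp x).det_nonneg).1
      rw [dv] at this
      exact nonneg_of_mul_nonneg_left this p
    have s0 := hG.toMet.tr_nonneg T0 x
    have m0 : 0 ≤ min 1 (M.dq H T x) := le_min zero_le_one b4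
    have b5 : min 1 (M.dq H T x) * R ≤ M.tr G T x := by
      refine le_of_pow_le_pow_left₀ hn.ne' s0 ?_
      have c1 := (pow_le_of_le_one m0 (min_le_left _ _) hn.ne').trans ((min_le_right _ _).trans b3)
      have c2 : Real.exp (u x) ≤ (R ^ n)⁻¹ := ((Real.exp_le_exp.2 (a1 x)).trans a3).trans h1.le
      rw [mul_pow, ← le_div_iff₀ (by positivity), div_eq_mul_inv]
      exact c1.trans (mul_le_mul_of_nonneg_left c2 (by positivity))
    have b6 := pow_le_pow_left₀ (by positivity) b5 2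
    rw [Real.exp_sub, le_inv_mul_iff₀ (by positivity), show R * Real.exp a * (Real.exp (u x) /
      Real.exp a * min 1 (M.dq H T x) ^ 2) = min 1 (M.dq H T x) ^ 2 * R * Real.exp (u x) by
        field_simp]
    refine mul_le_mul_of_nonneg_right (le_trans ?_ b6) (Real.exp_pos _).le
    rw [mul_pow]
    exact mul_le_mul_of_nonneg_left (by nlinarith) (sq_nonneg _)
  have k6 := integral_mono (μ := M.mu H)
    (hi ℝ _ ((hu.sm.sub (sm_const a)).exp.continuous.mul ((continuous_const.min sd).pow 2)))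
    ((hi ℝ _ ((sS.pow 2).mul hu.sm.exp).continuous).const_mul _) k5
  rw [integral_const_mul, ← v3] at k6
  refine k6.trans ?_
  rw [inv_mul_le_iff₀ (by positivity)]
  rw [div_le_iff₀ hδ] at hR
  have k7 := mul_le_mul_of_nonneg_left k4 (show 0 ≤ 4 / κ ^ 2 by positivity)
  nlinarith [mul_le_mul_of_nonneg_right hR (Real.exp_pos a).le]

end Pool.Agent.Lib.W86
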